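import Mathlib

/-!
Tensors of order six and slice rank `2m + 1` for which the minimal slice rank decompositions
involve `(m + 1)^2` linearly independent one-variable factors.
-/

set_option autoImplicit false
set_option linter.unusedSectionVars false

namespace Pool.Agent.Results.MP_626f3c_co.Quadratic

open Finset Module

/-- `(r, a, b)` is a slice rank decomposition of `T`. -/
def IsDec {F : Type} [Field F] {d : ℕ} {n : Fin d → ℕ} (T : (∀ j, Fin (n j)) → F)
    (r : Fin d → ℕ) (a : ∀ j, Fin (r j) → (Fin (n j) → F))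
    (b : ∀ j, Fin (r j) → ((∀ j' : {j' : Fin d // j' ≠ j}, Fin (n j'.1)) → F)) : Prop :=
  ∀ x, T x = ∑ j, ∑ i, a j i (x j) * b j i (fun j' => x j'.1)

/-- The slice rank: the least length of a slice rank decomposition. -/
noncomputable def sliceRank {F : Type} [Field F] {d : ℕ} {n : Fin d → ℕ}
    (T : (∀ j, Fin (n j)) → F) : ℕ :=
  sInf {k | ∃ (r : Fin d → ℕ) (a : ∀ j, Fin (r j) → (Fin (n j) → F))
    (b : ∀ j, Fin (r j) → ((∀ j' : {j' : Fin d // j' ≠ j}, Fin (n j'.1)) → F)),
    IsDec T r a b ∧ ∑ j, r j = k}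

section general

variable {F : Type} [Field F] {d V : ℕ} {E : Type} [Fintype E] [DecidableEq E]

/-- The tensor of a family of hyperedges: `e` has the vertex `π j e` in the part `j`. -/
def tens (F : Type) [Field F] (π : Fin d → E → Fin V) : (∀ _j : Fin d, Fin V) → F :=
  fun x => ∑ e, ∏ j, if π j e = x j then (1 : F) else 0

/-- `C` is a vertex cover. -/
def Cover (π : Fin d → E → Fin V) (C : Fin d → Finset (Fin V)) : Prop :=
  ∀ e, ∃ j, π j e ∈ C j

/-- Positions of leading entries with respect to an order. -/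
lemma leading (lt : Fin V → Fin V → Prop) [IsStrictTotalOrder (Fin V) lt] {r : ℕ}
    (a : Fin r → (Fin V → F)) :
    ∃ C : Finset (Fin V), C.card ≤ r ∧ ∀ s ∉ C, ∃ y : Fin V → F, (∀ i, ∑ z, a i z * y z = 0) ∧
      y s ≠ 0 ∧ ∀ t, lt t s → y t = 0 := by
  classical
  let Φ : (Fin V → F) →ₗ[F] (Fin r → F) :=
    { toFun := fun y i => ∑ z, a i z * y z
      map_add' := by
        intro y y'
        funext i
        simp only [Pi.add_apply, mul_add, sum_add_distrib]
      map_smul' := by
        intro c y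
        funext i
        simp only [Pi.smul_apply, smul_eq_mul, RingHom.id_apply, mul_sum]
        exact sum_congr rfl fun z _ => by ring }
  let W := LinearMap.ker Φ
  have hW : V ≤ finrank F W + r := by
    have h1 := LinearMap.finrank_range_add_finrank_ker Φ
    have h2 := Submodule.finrank_le (LinearMap.range Φ)
    rw [finrank_fintype_fun_eq_card, Fintype.card_fin] at h1 h2
    change V ≤ finrank F (LinearMap.ker Φ) + r
    omega
  let S : Finset (Fin V) := univ.filter (fun s => ∃ y ∈ W, y s ≠ 0 ∧ ∀ t, lt t s → y t = 0)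
  have hS : finrank F W ≤ S.card := by
    let R : W →ₗ[F] (S → F) := (LinearMap.funLeft F F (Subtype.val : S → Fin V)).comp W.subtype
    have hinj : Function.Injective R := by
      rw [← LinearMap.ker_eq_bot, LinearMap.ker_eq_bot']
      rintro ⟨y, hy⟩ h0
      by_contra hne
      have hne' : ∃ s, y s ≠ 0 := by
        by_contra hcon
        push Not at hcon
        apply hne
        apply Subtype.ext
        exact funext hcon
      have hwf : WellFounded lt := Finite.wellFounded_of_trans_of_irrefl lt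
      obtain ⟨s', hs', hmin'⟩ := hwf.has_min {s : Fin V | y s ≠ 0} hne'
      have hsS : s' ∈ S := by
        rw [mem_filter]
        refine ⟨mem_univ _, y, hy, hs', ?_⟩
        intro t ht
        by_contra h1
        exact hmin' t h1 ht
      have h2 := congrFun h0 ⟨s', hsS⟩
      exact hs' h2
    have h3 := LinearMap.finrank_le_finrank_of_injective hinj
    rwa [finrank_fintype_fun_eq_card, Fintype.card_coe] at h3
  refine ⟨Sᶜ, ?_, ?_⟩
  · rw [card_compl, Fintype.card_fin]
    omega
  · intro s hs
    rw [mem_compl, not_not, mem_filter] at hs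
    obtain ⟨-, y, hy, hy1, hy2⟩ := hs
    refine ⟨y, ?_, hy1, hy2⟩
    intro i
    exact congrFun (LinearMap.mem_ker.1 hy) i

/-- A decomposition of the tensor of hyperedges gives a vertex cover, if two parts give the same
injection. -/
lemma cover_of_dec {π : Fin d → E → Fin V} {p q : Fin d} (hpq : p ≠ q) (hπ : π p = π q)
    (hinj : Function.Injective (π p)) {r : Fin d → ℕ} {a : ∀ j, Fin (r j) → (Fin V → F)}
    {b : ∀ j, Fin (r j) → ((∀ _j' : {j' : Fin d // j' ≠ j}, Fin V) → F)}
    (h : IsDec (n := fun _ => V) (tens F π) r a b) :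
    ∃ C : Fin d → Finset (Fin V), (∀ j, (C j).card ≤ r j) ∧ Cover π C := by
  classical
  have hC : ∀ j, ∃ C : Finset (Fin V), C.card ≤ r j ∧ ∀ s ∉ C, ∃ y : Fin V → F,
      (∀ i, ∑ z, a j i z * y z = 0) ∧ y s ≠ 0 ∧
        ∀ t, (if j = q then s < t else t < s) → y t = 0 := by
    intro j
    by_cases hj : j = q
    · subst hj
      simp only [if_true]
      exact leading (fun s t => t < s) (a j)
    · simp only [hj, if_false]
      exact leading (fun s t => s < t) (a j)
  choose C hCr hCy using hC
  refine ⟨C, hCr, ?_⟩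
  intro e
  by_contra hcon
  push Not at hcon
  choose y hy1 hy2 hy3 using fun j => hCy j (π j e) (hcon j)
  -- evaluate the tensor at `y`
  have e1 : ∑ x : (∀ _j : Fin d, Fin V), tens F π x * ∏ j, y j (x j) = ∏ j, y j (π j e) := by
    have h1 : ∀ x : (∀ _j : Fin d, Fin V), tens F π x * ∏ j, y j (x j) =
        ∑ f, if (fun j => π j f) = x then ∏ j, y j (π j f) else 0 := by
      intro x
      unfold tens
      rw [sum_mul]
      apply sum_congr rfl
      intro f _
      split_ifs with hx
      · subst hx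
        simp
      · have : ∃ j, π j f ≠ x j := by
          by_contra hc
          push Not at hc
          exact hx (funext hc)
        obtain ⟨j, hj⟩ := this
        rw [Finset.prod_eq_zero (mem_univ j) (if_neg hj), zero_mul]
    simp only [h1]
    rw [sum_comm]
    have h2 : ∀ f, ∑ x : (∀ _j : Fin d, Fin V),
        (if (fun j => π j f) = x then ∏ j, y j (π j f) else 0) = ∏ j, y j (π j f) := by
      intro f
      rw [sum_ite_eq]
      simp
    simp only [h2]
    rw [Finset.sum_eq_single e]
    · intro f _ hfe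
      have hne : π p f ≠ π p e := fun h' => hfe (hinj h')
      rcases lt_or_gt_of_ne hne with hlt | hgt
      · apply Finset.prod_eq_zero (mem_univ p)
        apply hy3
        rw [if_neg hpq]
        exact hlt
      · apply Finset.prod_eq_zero (mem_univ q)
        apply hy3
        rw [if_pos rfl, ← hπ]
        exact hgt
    · intro h'
      exact absurd (mem_univ _) h'
  have e2 : ∑ x : (∀ _j : Fin d, Fin V), tens F π x * ∏ j, y j (x j) = 0 := by
    have h1 : ∀ x : (∀ _j : Fin d, Fin V), tens F π x * ∏ j, y j (x j) =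
        ∑ j, ∑ i, (a j i (x j) * b j i (fun j' => x j'.1)) * ∏ j, y j (x j) := by
      intro x
      rw [h x, sum_mul]
      exact sum_congr rfl fun j _ => sum_mul _ _ _
    simp only [h1]
    rw [sum_comm]
    apply sum_eq_zero
    intro j _
    rw [sum_comm]
    apply sum_eq_zero
    intro i _
    rw [← (Equiv.funSplitAt j (Fin V)).symm.sum_comp, Fintype.sum_prod_type, sum_comm]
    apply sum_eq_zero
    intro x' _
    have h2 : ∀ z : Fin V, (a j i ((Equiv.funSplitAt j (Fin V)).symm (z, x') j) *
        b j i (fun j' => (Equiv.funSplitAt j (Fin V)).symm (z, x') j'.1)) *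
        ∏ l, y l ((Equiv.funSplitAt j (Fin V)).symm (z, x') l) =
        (a j i z * y j z) * (b j i x' * ∏ l ∈ univ.erase j,
          if h : l = j then 1 else y l (x' ⟨l, h⟩)) := by
      intro z
      have h3 : (Equiv.funSplitAt j (Fin V)).symm (z, x') j = z := by simp
      have h4 : (fun j' : {j' : Fin d // j' ≠ j} =>
          (Equiv.funSplitAt j (Fin V)).symm (z, x') j'.1) = x' := by
        funext j'
        simp [j'.2]
      rw [h3, h4, ← Finset.mul_prod_erase univ _ (mem_univ j), h3]
      have h5 : ∏ l ∈ univ.erase j, y l ((Equiv.funSplitAt j (Fin V)).symm (z, x') l) =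
          ∏ l ∈ univ.erase j, if h : l = j then 1 else y l (x' ⟨l, h⟩) := by
        apply Finset.prod_congr rfl
        intro l hl
        rw [mem_erase] at hl
        rw [dif_neg hl.1]
        congr 1
        simp [hl.1]
      rw [h5]
      ring
    simp only [h2]
    rw [← sum_mul, hy1, zero_mul]
  rw [e1] at e2
  exact (Finset.prod_ne_zero_iff.2 fun j _ => hy2 j) e2

/-- The indicator function of a vertex. -/
def ind (F : Type) [Field F] (c : Fin V) : Fin V → F := fun z => if c = z then 1 else 0

/-- A vertex cover gives a decomposition whose one-variable factors are the indicator functions of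
its members. -/
lemma dec_of_cover {π : Fin d → E → Fin V} {C : Fin d → Finset (Fin V)} (hC : Cover π C) :
    ∃ (a : ∀ j, Fin (C j).card → (Fin V → F))
      (b : ∀ j, Fin (C j).card → ((∀ _j' : {j' : Fin d // j' ≠ j}, Fin V) → F)),
      IsDec (n := fun _ => V) (tens F π) (fun j => (C j).card) a b ∧
      ∀ j, ∀ c ∈ C j, ∃ i, a j i = ind F c := by
  classical
  choose J hJ using hC
  let e : ∀ j, Fin (C j).card ≃ C j := fun j => (C j).equivFin.symm
  refine ⟨fun j i => ind F (e j i).1, fun j i x' => ∑ f ∈ univ.filter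
    (fun f => J f = j ∧ π j f = (e j i).1), ∏ l ∈ univ.erase j,
      if h : l = j then 1 else (if π l f = x' ⟨l, h⟩ then (1 : F) else 0), ?_, ?_⟩
  · intro x
    have h1 : ∀ j, ∑ i, ind F (e j i).1 (x j) * ∑ f ∈ univ.filter
        (fun f => J f = j ∧ π j f = (e j i).1), ∏ l ∈ univ.erase j,
        (if h : l = j then 1 else (if π l f = x l then (1 : F) else 0)) =
        ∑ f ∈ univ.filter (fun f => J f = j), ∏ l, (if π l f = x l then (1 : F) else 0) := by
      intro j
      rw [(e j).sum_comp (fun c : C j => ind F c.1 (x j) * ∑ f ∈ univ.filter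
        (fun f => J f = j ∧ π j f = c.1), ∏ l ∈ univ.erase j,
        (if h : l = j then 1 else (if π l f = x l then (1 : F) else 0))),
        Finset.sum_coe_sort (C j) (fun c => ind F c (x j) * ∑ f ∈ univ.filter
        (fun f => J f = j ∧ π j f = c), ∏ l ∈ univ.erase j,
        (if h : l = j then 1 else (if π l f = x l then (1 : F) else 0)))]
      rw [← Finset.sum_fiberwise_of_maps_to (s := univ.filter (fun f => J f = j)) (t := C j)
        (g := fun f => π j f)]
      · apply sum_congr rfl
        intro c _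
        rw [filter_filter, mul_sum]
        apply sum_congr rfl
        intro f hf
        rw [mem_filter] at hf
        obtain ⟨-, hf1, hf2⟩ := hf
        rw [← Finset.mul_prod_erase univ _ (mem_univ j), hf2]
        congr 1
        apply Finset.prod_congr rfl
        intro l hl
        rw [mem_erase] at hl
        rw [dif_neg hl.1]
      · intro f hf
        rw [mem_filter] at hf
        rw [← hf.2]
        exact hJ f
    change ∑ f, ∏ l, _ = ∑ j, ∑ i, ind F (e j i).1 (x j) * ∑ f ∈ univ.filter
        (fun f => J f = j ∧ π j f = (e j i).1), ∏ l ∈ univ.erase j,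
        (if h : l = j then 1 else (if π l f = x l then (1 : F) else 0))
    simp only [h1]
    exact (Finset.sum_fiberwise univ J _).symm
  · intro j c hc
    refine ⟨(e j).symm ⟨c, hc⟩, ?_⟩
    simp only [Equiv.apply_symm_apply]

end general

/-! ### The concrete hypergraph -/

/-- The hyperedges: `p_i`, `q_j` for `i, j < m` and the clauses `(i, j)` for `i, j ≤ m`. -/
abbrev Ed (m : ℕ) := (Fin m ⊕ Fin m) ⊕ (Fin (m + 1) × Fin (m + 1))

/-- The vertex names: `m` common vertices and a private one for every hyperedge. -/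
abbrev Vt (m : ℕ) := Fin m ⊕ Ed m

/-- The vertices of the hyperedges in the six parts. -/
def vt {m : ℕ} : Fin 6 → Ed m → Vt m
  | 0, Sum.inl (Sum.inl i) => Sum.inl i
  | 0, Sum.inr (i, j) => if h : i.1 < m then Sum.inl ⟨i, h⟩ else Sum.inr (Sum.inr (i, j))
  | 1, Sum.inl (Sum.inl i) => Sum.inl i
  | 1, Sum.inr (i, j) => if h : 0 < i.1 then Sum.inl ⟨i - 1, by omega⟩ else
      Sum.inr (Sum.inr (i, j))
  | 2, Sum.inl (Sum.inr i) => Sum.inl i
  | 2, Sum.inr (i, j) => if h : j.1 < m then Sum.inl ⟨j, h⟩ else Sum.inr (Sum.inr (i, j))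
  | 3, Sum.inl (Sum.inr i) => Sum.inl i
  | 3, Sum.inr (i, j) => if h : 0 < j.1 then Sum.inl ⟨j - 1, by omega⟩ else
      Sum.inr (Sum.inr (i, j))
  | _, e => Sum.inr e

/-- The number of vertex names. -/
abbrev NV (m : ℕ) : ℕ := Fintype.card (Vt m)

/-- The numbering of the vertex names. -/
noncomputable def num (m : ℕ) : Vt m ≃ Fin (NV m) := Fintype.equivFin _

/-- The hypergraph. -/
noncomputable def ppi (m : ℕ) : Fin 6 → Ed m → Fin (NV m) := fun j e => num m (vt j e)

lemma vt_inj_on {m : ℕ} (j : Fin 6) (e e' : Fin m ⊕ Fin m)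
    (h : vt j (Sum.inl e) = vt j (Sum.inl e')) : e = e' := by
  fin_cases j <;> rcases e with i | i <;> rcases e' with i' | i' <;>
    simp [vt] at h ⊢ <;> exact h

lemma vt_ne_clause {m : ℕ} (j : Fin 6) (e : Fin m ⊕ Fin m) (x : Fin (m + 1) × Fin (m + 1)) :
    vt j (Sum.inl e) ≠ Sum.inr (Sum.inr x) := by
  fin_cases j <;> rcases e with i | i <;> simp [vt]

/-- Every vertex cover has at least `2m + 1` vertices. -/
lemma le_cover {m : ℕ} {C : Fin 6 → Finset (Vt m)} (hC : ∀ e, ∃ j, vt j e ∈ C j) :
    2 * m + 1 ≤ ∑ j, (C j).card := by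
  classical
  by_contra hcon
  choose J hJ using hC
  let ψ : (Fin m ⊕ Fin m) → Σ j, C j := fun e => ⟨J (Sum.inl e), vt _ (Sum.inl e), hJ _⟩
  have hψ : Function.Injective ψ := by
    intro e e' h
    have h1 : J (Sum.inl e) = J (Sum.inl e') := congrArg Sigma.fst h
    have h2 : (ψ e).2.1 = (ψ e').2.1 := by rw [h]
    have h3 : vt (J (Sum.inl e)) (Sum.inl e) = vt (J (Sum.inl e')) (Sum.inl e') := h2
    rw [h1] at h3
    exact vt_inj_on _ _ _ h3
  have hcard : Fintype.card (Σ j, C j) = ∑ j, (C j).card := by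
    rw [Fintype.card_sigma]
    simp
  have hbij : Function.Bijective ψ := by
    rw [Fintype.bijective_iff_injective_and_card]
    refine ⟨hψ, ?_⟩
    have h1 := Fintype.card_le_of_injective ψ hψ
    rw [hcard] at h1 ⊢
    rw [Fintype.card_sum, Fintype.card_fin] at h1 ⊢
    omega
  have hsurj : ∀ j c, c ∈ C j → ∃ e, J (Sum.inl e) = j ∧ vt j (Sum.inl e) = c := by
    intro j c hc
    obtain ⟨e, he⟩ := hbij.2 ⟨j, c, hc⟩
    have h1 : J (Sum.inl e) = j := congrArg Sigma.fst he
    refine ⟨e, h1, ?_⟩
    have h2 : (ψ e).2.1 = c := by rw [he]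
    have h3 : vt (J (Sum.inl e)) (Sum.inl e) = c := h2
    rwa [h1] at h3
  -- no private vertex of a clause is used
  have hpriv : ∀ j x, Sum.inr (Sum.inr x) ∉ C j := by
    intro j x hx
    obtain ⟨e, -, he⟩ := hsurj j _ hx
    exact vt_ne_clause j e x he
  -- `p_i` and `q_i` are covered once
  have hp : ∀ i : Fin m, Sum.inl i ∈ C 0 → Sum.inl i ∉ C 1 := by
    intro i h0 h1
    obtain ⟨e, he, he'⟩ := hsurj 0 _ h0
    obtain ⟨f, hf, hf'⟩ := hsurj 1 _ h1
    have e1 : e = Sum.inl i := by
      rcases e with e | e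
      · simpa [vt] using he'
      · simp [vt] at he'
    have e2 : f = Sum.inl i := by
      rcases f with f | f
      · simpa [vt] using hf'
      · simp [vt] at hf'
    rw [e1] at he
    rw [e2, he] at hf
    exact absurd hf (by decide)
  have hq : ∀ i : Fin m, Sum.inl i ∈ C 2 → Sum.inl i ∉ C 3 := by
    intro i h0 h1
    obtain ⟨e, he, he'⟩ := hsurj 2 _ h0
    obtain ⟨f, hf, hf'⟩ := hsurj 3 _ h1
    have e1 : e = Sum.inr i := by
      rcases e with e | e
      · simp [vt] at he'
      · simpa [vt] using he'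
    have e2 : f = Sum.inr i := by
      rcases f with f | f
      · simp [vt] at hf'
      · simpa [vt] using hf'
    rw [e1] at he
    rw [e2, he] at hf
    exact absurd hf (by decide)
  -- the first index not chosen
  have hfirst : ∀ P : Fin m → Prop, ∃ i : Fin (m + 1), (∀ h : i.1 < m, ¬ P ⟨i, h⟩) ∧
      (∀ h : 0 < i.1, P ⟨i - 1, by omega⟩) := by
    intro P
    have hex : ∃ k, k = m ∨ ∃ h : k < m, ¬ P ⟨k, h⟩ := ⟨m, Or.inl rfl⟩
    let k := Nat.find hex
    have hk := Nat.find_spec hex
    have hkm : k ≤ m := by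
      rcases hk with h | ⟨h, -⟩
      · exact h.le
      · exact h.le
    refine ⟨⟨k, by omega⟩, ?_, ?_⟩
    · intro h hP
      rcases hk with h1 | ⟨h1, h2⟩
      · change k = m at h1
        have h3 : k < m := h
        omega
      · exact h2 hP
    · intro h
      have h0 : 0 < k := h
      have h1 := Nat.find_min hex (m := k - 1) (by
        change k - 1 < k
        omega)
      push Not at h1
      exact h1.2 (by omega)
  obtain ⟨i, hi1, hi2⟩ := hfirst (fun i => Sum.inl i ∈ C 0)
  obtain ⟨j, hj1, hj2⟩ := hfirst (fun i => Sum.inl i ∈ C 2)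
  have hcl := hJ (Sum.inr (i, j))
  generalize J (Sum.inr (i, j)) = l at hcl
  fin_cases l
  · change vt 0 (Sum.inr (i, j)) ∈ C 0 at hcl
    simp only [vt] at hcl
    split_ifs at hcl with h
    · exact hi1 h hcl
    · exact hpriv _ _ hcl
  · change vt 1 (Sum.inr (i, j)) ∈ C 1 at hcl
    simp only [vt] at hcl
    split_ifs at hcl with h
    · exact hp _ (hi2 h) hcl
    · exact hpriv _ _ hcl
  · change vt 2 (Sum.inr (i, j)) ∈ C 2 at hcl
    simp only [vt] at hcl
    split_ifs at hcl with h
    · exact hj1 h hcl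
    · exact hpriv _ _ hcl
  · change vt 3 (Sum.inr (i, j)) ∈ C 3 at hcl
    simp only [vt] at hcl
    split_ifs at hcl with h
    · exact hq _ (hj2 h) hcl
    · exact hpriv _ _ hcl
  · exact hpriv 4 _ hcl
  · exact hpriv 5 _ hcl

/-- The minimal vertex cover belonging to a clause. -/
def cov {m : ℕ} (x : Fin (m + 1) × Fin (m + 1)) : Fin 6 → Finset (Vt m)
  | 0 => (univ.filter (fun i : Fin m => i.1 < x.1.1)).map ⟨Sum.inl, Sum.inl_injective⟩
  | 1 => (univ.filter (fun i : Fin m => ¬ i.1 < x.1.1)).map ⟨Sum.inl, Sum.inl_injective⟩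
  | 2 => (univ.filter (fun i : Fin m => i.1 < x.2.1)).map ⟨Sum.inl, Sum.inl_injective⟩
  | 3 => (univ.filter (fun i : Fin m => ¬ i.1 < x.2.1)).map ⟨Sum.inl, Sum.inl_injective⟩
  | 4 => {Sum.inr (Sum.inr x)}
  | _ => ∅

lemma card_cov {m : ℕ} (x : Fin (m + 1) × Fin (m + 1)) : ∑ j, (cov x j).card = 2 * m + 1 := by
  rw [Fin.sum_univ_six]
  simp only [cov, card_map, card_singleton, card_empty]
  have h1 := Finset.card_filter_add_card_filter_not (s := (univ : Finset (Fin m)))
    (fun i : Fin m => i.1 < x.1.1)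
  have h2 := Finset.card_filter_add_card_filter_not (s := (univ : Finset (Fin m)))
    (fun i : Fin m => i.1 < x.2.1)
  rw [card_univ, Fintype.card_fin] at h1 h2
  omega

lemma cov_cover {m : ℕ} (x : Fin (m + 1) × Fin (m + 1)) (e : Ed m) :
    ∃ j, vt j e ∈ cov x j := by
  rcases e with (i | i) | ⟨i, j⟩
  · by_cases h : i.1 < x.1.1
    · exact ⟨0, by simp [vt, cov, h]⟩
    · exact ⟨1, by simp only [vt, cov]; simp; omega⟩
  · by_cases h : i.1 < x.2.1
    · exact ⟨2, by simp [vt, cov, h]⟩
    · exact ⟨3, by simp only [vt, cov]; simp; omega⟩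
  · rcases lt_trichotomy i.1 x.1.1 with h | h | h
    · refine ⟨0, ?_⟩
      have h1 : i.1 < m := by omega
      simp only [vt, cov, dif_pos h1]
      simp [h]
    · rcases lt_trichotomy j.1 x.2.1 with h' | h' | h'
      · refine ⟨2, ?_⟩
        have h1 : j.1 < m := by omega
        simp only [vt, cov, dif_pos h1]
        simp [h']
      · refine ⟨4, ?_⟩
        simp only [vt, cov, mem_singleton]
        have : (i, j) = x := Prod.ext (Fin.ext h) (Fin.ext h')
        rw [this]
      · refine ⟨3, ?_⟩
        have h1 : 0 < j.1 := by omega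
        simp only [vt, cov, dif_pos h1]
        simp
        omega
    · refine ⟨1, ?_⟩
      have h1 : 0 < i.1 := by omega
      simp only [vt, cov, dif_pos h1]
      simp
      omega

/-- Transport of a cover to the numbered vertices. -/
noncomputable def ncov {m : ℕ} (x : Fin (m + 1) × Fin (m + 1)) : Fin 6 → Finset (Fin (NV m)) :=
  fun j => (cov x j).map (num m).toEmbedding

lemma ncov_cover {m : ℕ} (x : Fin (m + 1) × Fin (m + 1)) : Cover (ppi m) (ncov x) := by
  intro e
  obtain ⟨j, hj⟩ := cov_cover x e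
  exact ⟨j, mem_map_of_mem _ hj⟩

lemma card_ncov {m : ℕ} (x : Fin (m + 1) × Fin (m + 1)) : ∑ j, (ncov x j).card = 2 * m + 1 := by
  rw [← card_cov x]
  exact sum_congr rfl fun j _ => card_map _

lemma le_ncover {m : ℕ} {C : Fin 6 → Finset (Fin (NV m))} (hC : Cover (ppi m) C) :
    2 * m + 1 ≤ ∑ j, (C j).card := by
  have h := le_cover (C := fun j => (C j).map (num m).symm.toEmbedding) (by
    intro e
    obtain ⟨j, hj⟩ := hC e
    refine ⟨j, ?_⟩
    have h1 := mem_map_of_mem (num m).symm.toEmbedding hj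
    have h2 : (num m).symm.toEmbedding (ppi m j e) = vt j e := (num m).symm_apply_apply _
    rwa [h2] at h1)
  refine h.trans (le_of_eq ?_)
  exact sum_congr rfl fun j _ => card_map _

lemma sliceRank_tens (F : Type) [Field F] (m : ℕ) :
    sliceRank (n := fun _ : Fin 6 => NV m) (tens F (ppi m)) = 2 * m + 1 := by
  have hle : ∀ k, (∃ (r : Fin 6 → ℕ) (a : ∀ j, Fin (r j) → (Fin (NV m) → F))
      (b : ∀ j, Fin (r j) → ((∀ _j' : {j' : Fin 6 // j' ≠ j}, Fin (NV m)) → F)),
      IsDec (n := fun _ => NV m) (tens F (ppi m)) r a b ∧ ∑ j, r j = k) → 2 * m + 1 ≤ k := by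
    rintro k ⟨r, a, b, h, rfl⟩
    obtain ⟨C, hC, hcov⟩ := cover_of_dec (p := 4) (q := 5) (by decide)
      (by funext e; rfl) (by
        intro e e' hee
        have h1 : vt (4 : Fin 6) e = vt 4 e' := (num m).injective hee
        have h2 : (Sum.inr e : Vt m) = Sum.inr e' := h1
        exact Sum.inr_injective h2) h
    exact (le_ncover hcov).trans (Finset.sum_le_sum fun j _ => hC j)
  have hmem : ∃ (r : Fin 6 → ℕ) (a : ∀ j, Fin (r j) → (Fin (NV m) → F))
      (b : ∀ j, Fin (r j) → ((∀ _j' : {j' : Fin 6 // j' ≠ j}, Fin (NV m)) → F)),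
      IsDec (n := fun _ => NV m) (tens F (ppi m)) r a b ∧ ∑ j, r j = 2 * m + 1 := by
    obtain ⟨a, b, h, -⟩ := dec_of_cover (F := F) (ncov_cover (m := m) (0, 0))
    exact ⟨_, a, b, h, card_ncov _⟩
  apply le_antisymm
  · exact Nat.sInf_le hmem
  · apply hle
    have hne : {k | ∃ (r : Fin 6 → ℕ) (a : ∀ j, Fin (r j) → (Fin (NV m) → F))
      (b : ∀ j, Fin (r j) → ((∀ _j' : {j' : Fin 6 // j' ≠ j}, Fin (NV m)) → F)),
      IsDec (n := fun _ => NV m) (tens F (ppi m)) r a b ∧ ∑ j, r j = k}.Nonempty := ⟨_, hmem⟩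
    exact Nat.sInf_mem hne

/-- For every field and every constant `K` there is a tensor of order six, of slice rank `k`, for
which no subspaces of dimension at most `K k` contain the one-variable factors of all
decompositions of length `k`. -/
theorem result (F : Type) [Field F] (K : ℝ) :
    ∃ (k : ℕ) (n : Fin 6 → ℕ) (T : (∀ j, Fin (n j)) → F), 1 ≤ k ∧ (∀ j, 0 < n j) ∧
      sliceRank T = k ∧
      ¬ ∃ A : ∀ j, Submodule F (Fin (n j) → F), (∀ j, (finrank F (A j) : ℝ) ≤ K * k) ∧
        ∀ (r : Fin 6 → ℕ) (a : ∀ j, Fin (r j) → (Fin (n j) → F))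
          (b : ∀ j, Fin (r j) → ((∀ j' : {j' : Fin 6 // j' ≠ j}, Fin (n j'.1)) → F)),
          IsDec T r a b → ∑ j, r j = k → ∀ j, Submodule.span F (Set.range (a j)) ≤ A j := by
  obtain ⟨N, hN⟩ := exists_nat_ge K
  set m : ℕ := 2 * N with hm
  refine ⟨2 * m + 1, fun _ => NV m, tens F (ppi m), by omega, fun _ => ?_, sliceRank_tens F m, ?_⟩
  · exact Fintype.card_pos_iff.2 ⟨Sum.inr (Sum.inr (0, 0))⟩
  rintro ⟨A, hA, hall⟩
  let c : Fin (m + 1) × Fin (m + 1) → Fin (NV m) := fun x => num m (Sum.inr (Sum.inr x))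
  have hc : Function.Injective c := by
    intro x y hxy
    exact Sum.inr_injective (Sum.inr_injective ((num m).injective hxy))
  have hmem : ∀ x, ind F (c x) ∈ A 4 := by
    intro x
    obtain ⟨a, b, h, hfac⟩ := dec_of_cover (F := F) (ncov_cover x)
    obtain ⟨i, hi⟩ := hfac 4 (c x) (mem_map_of_mem _ (mem_singleton_self _))
    rw [← hi]
    exact hall _ a b h (card_ncov x) 4 (Submodule.subset_span ⟨i, rfl⟩)
  have hli : LinearIndependent F (fun x => ind F (c x)) := by
    rw [Fintype.linearIndependent_iff]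
    intro g hg x
    have h1 := congrFun hg (c x)
    rw [Finset.sum_apply, Finset.sum_eq_single x] at h1
    · simpa [ind] using h1
    · intro y _ hyx
      simp only [Pi.smul_apply, smul_eq_mul, ind]
      rw [if_neg (fun h => hyx (hc h)), mul_zero]
    · intro h
      exact absurd (mem_univ _) h
  have hcard : (m + 1) * (m + 1) ≤ finrank F (A 4) := by
    have h1 : LinearIndependent F (fun x => (⟨ind F (c x), hmem x⟩ : A 4)) :=
      LinearIndependent.of_comp (A 4).subtype hli
    have h2 := h1.fintype_card_le_finrank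
    rwa [Fintype.card_prod, Fintype.card_fin] at h2
  have h1 := hA 4
  have h2 : ((m + 1) * (m + 1) : ℝ) ≤ finrank F (A 4) := by exact_mod_cast hcard
  have h3 : (m : ℝ) = 2 * N := by
    rw [hm]
    push_cast
    ring
  have hN0 : (0 : ℝ) ≤ N := Nat.cast_nonneg N
  have h4 : K * ((2 * m + 1 : ℕ) : ℝ) ≤ N * (4 * N + 1) := by
    push_cast
    rw [h3]
    have : (0 : ℝ) ≤ 2 * (2 * N) + 1 := by positivity
    nlinarith
  rw [h3] at h2
  nlinarith

end Pool.Agent.Results.MP_626f3c_co.Quadratic
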